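import Mathlib
import Pool.Agent.H188.Ab.K4.Data

set_option autoImplicit false

/-!
Basic checks.
-/

namespace Pool.Agent.H188.Ab.K4

open Pool.Agent.H549R3.Chk

theorem k0 : D.ck0 = true := by decide +kernel

theorem kB : allB 4 (fun c => D.ckB c) = true := by decide +kernel

theorem kC : allB 4 (fun c => D.ckC c) = true := by decide +kernel

theorem kA : allB 8 (fun a => D.ckA a) = true := by decide +kernel

theorem kS : D.ckS = true := by decide +kernel

theorem kQ : ckQ = true := by decide +kernel

theorem kK : allL KL okCode = true := by decide +kernel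

theorem ok : Dat.Ok D :=
  ⟨k0, fun c hc => allB_spec _ _ kB c hc, fun c hc => allB_spec _ _ kC c hc,
    fun a ha => allB_spec _ _ kA a ha, kS⟩

end Pool.Agent.H188.Ab.K4
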