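import Mathlib
import Pool.Agent.H188.Ab.K4.C32

set_option autoImplicit false

/-!
Part of the main loop.
-/

namespace Pool.Agent.H188.Ab.K4

open Pool.Agent.H549R3.Chk

theorem c144 : allB 30 (fun d => D.chkD KL (Nat.add d 4090)) = true := by decide +kernel

theorem c145 : allB 30 (fun d => D.chkD KL (Nat.add d 4120)) = true := by decide +kernel

theorem c146 : allB 30 (fun d => D.chkD KL (Nat.add d 4150)) = true := by decide +kernel

theorem c147 : allB 30 (fun d => D.chkD KL (Nat.add d 4180)) = true := by decide +kernel

end Pool.Agent.H188.Ab.K4
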