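import Mathlib
import Pool.Agent.H188.Ab.K4.C76

set_option autoImplicit false

/-!
Part of the main loop.
-/

namespace Pool.Agent.H188.Ab.K4

open Pool.Agent.H549R3.Chk

theorem c320 : allB 30 (fun d => D.chkD KL (Nat.add d 9370)) = true := by decide +kernel

theorem c321 : allB 30 (fun d => D.chkD KL (Nat.add d 9400)) = true := by decide +kernel

theorem c322 : allB 30 (fun d => D.chkD KL (Nat.add d 9430)) = true := by decide +kernel

theorem c323 : allB 30 (fun d => D.chkD KL (Nat.add d 9460)) = true := by decide +kernel

end Pool.Agent.H188.Ab.K4
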