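import Mathlib
import Pool.Agent.H188.Ab.K4.C18

set_option autoImplicit false

/-!
Part of the main loop.
-/

namespace Pool.Agent.H188.Ab.K4

open Pool.Agent.H549R3.Chk

theorem c88 : allB 30 (fun d => D.chkD KL (Nat.add d 2410)) = true := by decide +kernel

theorem c89 : allB 30 (fun d => D.chkD KL (Nat.add d 2440)) = true := by decide +kernel

theorem c90 : allB 30 (fun d => D.chkD KL (Nat.add d 2470)) = true := by decide +kernel

theorem c91 : allB 30 (fun d => D.chkD KL (Nat.add d 2500)) = true := by decide +kernel

end Pool.Agent.H188.Ab.K4
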