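import Mathlib
import Pool.Agent.H188.Ab.K4.C90

set_option autoImplicit false

/-!
Part of the main loop.
-/

namespace Pool.Agent.H188.Ab.K4

open Pool.Agent.H549R3.Chk

theorem c376 : allB 30 (fun d => D.chkD KL (Nat.add d 11050)) = true := by decide +kernel

theorem c377 : allB 30 (fun d => D.chkD KL (Nat.add d 11080)) = true := by decide +kernel

theorem c378 : allB 30 (fun d => D.chkD KL (Nat.add d 11110)) = true := by decide +kernel

theorem c379 : allB 30 (fun d => D.chkD KL (Nat.add d 11140)) = true := by decide +kernel

end Pool.Agent.H188.Ab.K4
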