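import Mathlib
import Pool.Agent.H188.Ab.K4.Base
import Pool.Agent.H188.Ab.K4.C0
import Pool.Agent.H188.Ab.K4.C1
import Pool.Agent.H188.Ab.K4.C2
import Pool.Agent.H188.Ab.K4.C3
import Pool.Agent.H188.Ab.K4.C4
import Pool.Agent.H188.Ab.K4.C5
import Pool.Agent.H188.Ab.K4.C6
import Pool.Agent.H188.Ab.K4.C7
import Pool.Agent.H188.Ab.K4.C8
import Pool.Agent.H188.Ab.K4.C9
import Pool.Agent.H188.Ab.K4.C10
import Pool.Agent.H188.Ab.K4.C11
import Pool.Agent.H188.Ab.K4.C12
import Pool.Agent.H188.Ab.K4.C13
import Pool.Agent.H188.Ab.K4.C14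
import Pool.Agent.H188.Ab.K4.C15
import Pool.Agent.H188.Ab.K4.C16
import Pool.Agent.H188.Ab.K4.C17
import Pool.Agent.H188.Ab.K4.C18
import Pool.Agent.H188.Ab.K4.C19
import Pool.Agent.H188.Ab.K4.C20
import Pool.Agent.H188.Ab.K4.C21
import Pool.Agent.H188.Ab.K4.C22
import Pool.Agent.H188.Ab.K4.C23
import Pool.Agent.H188.Ab.K4.C24
import Pool.Agent.H188.Ab.K4.C25
import Pool.Agent.H188.Ab.K4.C26
import Pool.Agent.H188.Ab.K4.C27
import Pool.Agent.H188.Ab.K4.C28
import Pool.Agent.H188.Ab.K4.C29
import Pool.Agent.H188.Ab.K4.C30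
import Pool.Agent.H188.Ab.K4.C31
import Pool.Agent.H188.Ab.K4.C32
import Pool.Agent.H188.Ab.K4.C33
import Pool.Agent.H188.Ab.K4.C34
import Pool.Agent.H188.Ab.K4.C35
import Pool.Agent.H188.Ab.K4.C36
import Pool.Agent.H188.Ab.K4.C37
import Pool.Agent.H188.Ab.K4.C38
import Pool.Agent.H188.Ab.K4.C39
import Pool.Agent.H188.Ab.K4.C40
import Pool.Agent.H188.Ab.K4.C41
import Pool.Agent.H188.Ab.K4.C42
import Pool.Agent.H188.Ab.K4.C43
import Pool.Agent.H188.Ab.K4.C44
import Pool.Agent.H188.Ab.K4.C45
import Pool.Agent.H188.Ab.K4.C46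
import Pool.Agent.H188.Ab.K4.C47
import Pool.Agent.H188.Ab.K4.C48
import Pool.Agent.H188.Ab.K4.C49
import Pool.Agent.H188.Ab.K4.C50
import Pool.Agent.H188.Ab.K4.C51
import Pool.Agent.H188.Ab.K4.C52
import Pool.Agent.H188.Ab.K4.C53
import Pool.Agent.H188.Ab.K4.C54
import Pool.Agent.H188.Ab.K4.C55
import Pool.Agent.H188.Ab.K4.C56
import Pool.Agent.H188.Ab.K4.C57
import Pool.Agent.H188.Ab.K4.C58
import Pool.Agent.H188.Ab.K4.C59
import Pool.Agent.H188.Ab.K4.C60
import Pool.Agent.H188.Ab.K4.C61
import Pool.Agent.H188.Ab.K4.C62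
import Pool.Agent.H188.Ab.K4.C63
import Pool.Agent.H188.Ab.K4.C64
import Pool.Agent.H188.Ab.K4.C65
import Pool.Agent.H188.Ab.K4.C66
import Pool.Agent.H188.Ab.K4.C67
import Pool.Agent.H188.Ab.K4.C68
import Pool.Agent.H188.Ab.K4.C69
import Pool.Agent.H188.Ab.K4.C70
import Pool.Agent.H188.Ab.K4.C71
import Pool.Agent.H188.Ab.K4.C72
import Pool.Agent.H188.Ab.K4.C73
import Pool.Agent.H188.Ab.K4.C74
import Pool.Agent.H188.Ab.K4.C75
import Pool.Agent.H188.Ab.K4.C76
import Pool.Agent.H188.Ab.K4.C77
import Pool.Agent.H188.Ab.K4.C78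
import Pool.Agent.H188.Ab.K4.C79
import Pool.Agent.H188.Ab.K4.C80
import Pool.Agent.H188.Ab.K4.C81
import Pool.Agent.H188.Ab.K4.C82
import Pool.Agent.H188.Ab.K4.C83
import Pool.Agent.H188.Ab.K4.C84
import Pool.Agent.H188.Ab.K4.C85
import Pool.Agent.H188.Ab.K4.C86
import Pool.Agent.H188.Ab.K4.C87
import Pool.Agent.H188.Ab.K4.C88
import Pool.Agent.H188.Ab.K4.C89
import Pool.Agent.H188.Ab.K4.C90
import Pool.Agent.H188.Ab.K4.C91
import Pool.Agent.H188.Ab.K4.C92
import Pool.Agent.H188.Ab.K4.C93
import Pool.Agent.H188.Ab.K4.C94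
import Pool.Agent.H188.Ab.K4.C95
import Pool.Agent.H188.Ab.K4.C96
import Pool.Agent.H188.Ab.K4.C97
import Pool.Agent.H188.Ab.K4.C98
import Pool.Agent.H188.Ab.K4.C99
import Pool.Agent.H188.Ab.K4.C100
import Pool.Agent.H188.Ab.K4.C101
import Pool.Agent.H188.Ab.K4.C102
import Pool.Agent.H188.Ab.K4.C103

set_option autoImplicit false

/-!
All checks.
-/

namespace Pool.Agent.H188.Ab.K4

open Pool.Agent.H549R3.Chk

theorem ext (off n : ℕ) (h : allB n (fun d => D.chkD KL (Nat.add d off)) = true)
    (prev : ∀ d < off, D.chkD KL d = true) : ∀ d < off + n, D.chkD KL d = true := by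
  intro d hd
  by_cases hc : d < off
  · exact prev d hc
  · have h1 := allB_spec _ _ h (d - off) (by omega)
    have e : Nat.add (d - off) off = d := by
      change d - off + off = d
      omega
    rw [← e]
    exact h1

theorem p0 : ∀ d < 0, D.chkD KL d = true := fun d hd => absurd hd (Nat.not_lt_zero d)

theorem p1 : ∀ d < 1, D.chkD KL d = true := ext 0 1 c0 p0

theorem p2 : ∀ d < 2, D.chkD KL d = true := ext 1 1 c1 p1

theorem p3 : ∀ d < 3, D.chkD KL d = true := ext 2 1 c2 p2

theorem p4 : ∀ d < 4, D.chkD KL d = true := ext 3 1 c3 p3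

theorem p5 : ∀ d < 5, D.chkD KL d = true := ext 4 1 c4 p4

theorem p6 : ∀ d < 6, D.chkD KL d = true := ext 5 1 c5 p5

theorem p7 : ∀ d < 8, D.chkD KL d = true := ext 6 2 c6 p6

theorem p8 : ∀ d < 10, D.chkD KL d = true := ext 8 2 c7 p7

theorem p9 : ∀ d < 40, D.chkD KL d = true := ext 10 30 c8 p8

theorem p10 : ∀ d < 70, D.chkD KL d = true := ext 40 30 c9 p9

theorem p11 : ∀ d < 100, D.chkD KL d = true := ext 70 30 c10 p10

theorem p12 : ∀ d < 130, D.chkD KL d = true := ext 100 30 c11 p11

theorem p13 : ∀ d < 160, D.chkD KL d = true := ext 130 30 c12 p12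

theorem p14 : ∀ d < 190, D.chkD KL d = true := ext 160 30 c13 p13

theorem p15 : ∀ d < 220, D.chkD KL d = true := ext 190 30 c14 p14

theorem p16 : ∀ d < 250, D.chkD KL d = true := ext 220 30 c15 p15

theorem p17 : ∀ d < 280, D.chkD KL d = true := ext 250 30 c16 p16

theorem p18 : ∀ d < 310, D.chkD KL d = true := ext 280 30 c17 p17

theorem p19 : ∀ d < 340, D.chkD KL d = true := ext 310 30 c18 p18

theorem p20 : ∀ d < 370, D.chkD KL d = true := ext 340 30 c19 p19

theorem p21 : ∀ d < 400, D.chkD KL d = true := ext 370 30 c20 p20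

theorem p22 : ∀ d < 430, D.chkD KL d = true := ext 400 30 c21 p21

theorem p23 : ∀ d < 460, D.chkD KL d = true := ext 430 30 c22 p22

theorem p24 : ∀ d < 490, D.chkD KL d = true := ext 460 30 c23 p23

theorem p25 : ∀ d < 520, D.chkD KL d = true := ext 490 30 c24 p24

theorem p26 : ∀ d < 550, D.chkD KL d = true := ext 520 30 c25 p25

theorem p27 : ∀ d < 580, D.chkD KL d = true := ext 550 30 c26 p26

theorem p28 : ∀ d < 610, D.chkD KL d = true := ext 580 30 c27 p27

theorem p29 : ∀ d < 640, D.chkD KL d = true := ext 610 30 c28 p28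

theorem p30 : ∀ d < 670, D.chkD KL d = true := ext 640 30 c29 p29

theorem p31 : ∀ d < 700, D.chkD KL d = true := ext 670 30 c30 p30

theorem p32 : ∀ d < 730, D.chkD KL d = true := ext 700 30 c31 p31

theorem p33 : ∀ d < 760, D.chkD KL d = true := ext 730 30 c32 p32

theorem p34 : ∀ d < 790, D.chkD KL d = true := ext 760 30 c33 p33

theorem p35 : ∀ d < 820, D.chkD KL d = true := ext 790 30 c34 p34

theorem p36 : ∀ d < 850, D.chkD KL d = true := ext 820 30 c35 p35

theorem p37 : ∀ d < 880, D.chkD KL d = true := ext 850 30 c36 p36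

theorem p38 : ∀ d < 910, D.chkD KL d = true := ext 880 30 c37 p37

theorem p39 : ∀ d < 940, D.chkD KL d = true := ext 910 30 c38 p38

theorem p40 : ∀ d < 970, D.chkD KL d = true := ext 940 30 c39 p39

theorem p41 : ∀ d < 1000, D.chkD KL d = true := ext 970 30 c40 p40

theorem p42 : ∀ d < 1030, D.chkD KL d = true := ext 1000 30 c41 p41

theorem p43 : ∀ d < 1060, D.chkD KL d = true := ext 1030 30 c42 p42

theorem p44 : ∀ d < 1090, D.chkD KL d = true := ext 1060 30 c43 p43

theorem p45 : ∀ d < 1120, D.chkD KL d = true := ext 1090 30 c44 p44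

theorem p46 : ∀ d < 1150, D.chkD KL d = true := ext 1120 30 c45 p45

theorem p47 : ∀ d < 1180, D.chkD KL d = true := ext 1150 30 c46 p46

theorem p48 : ∀ d < 1210, D.chkD KL d = true := ext 1180 30 c47 p47

theorem p49 : ∀ d < 1240, D.chkD KL d = true := ext 1210 30 c48 p48

theorem p50 : ∀ d < 1270, D.chkD KL d = true := ext 1240 30 c49 p49

theorem p51 : ∀ d < 1300, D.chkD KL d = true := ext 1270 30 c50 p50

theorem p52 : ∀ d < 1330, D.chkD KL d = true := ext 1300 30 c51 p51

theorem p53 : ∀ d < 1360, D.chkD KL d = true := ext 1330 30 c52 p52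

theorem p54 : ∀ d < 1390, D.chkD KL d = true := ext 1360 30 c53 p53

theorem p55 : ∀ d < 1420, D.chkD KL d = true := ext 1390 30 c54 p54

theorem p56 : ∀ d < 1450, D.chkD KL d = true := ext 1420 30 c55 p55

theorem p57 : ∀ d < 1480, D.chkD KL d = true := ext 1450 30 c56 p56

theorem p58 : ∀ d < 1510, D.chkD KL d = true := ext 1480 30 c57 p57

theorem p59 : ∀ d < 1540, D.chkD KL d = true := ext 1510 30 c58 p58

theorem p60 : ∀ d < 1570, D.chkD KL d = true := ext 1540 30 c59 p59

theorem p61 : ∀ d < 1600, D.chkD KL d = true := ext 1570 30 c60 p60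

theorem p62 : ∀ d < 1630, D.chkD KL d = true := ext 1600 30 c61 p61

theorem p63 : ∀ d < 1660, D.chkD KL d = true := ext 1630 30 c62 p62

theorem p64 : ∀ d < 1690, D.chkD KL d = true := ext 1660 30 c63 p63

theorem p65 : ∀ d < 1720, D.chkD KL d = true := ext 1690 30 c64 p64

theorem p66 : ∀ d < 1750, D.chkD KL d = true := ext 1720 30 c65 p65

theorem p67 : ∀ d < 1780, D.chkD KL d = true := ext 1750 30 c66 p66

theorem p68 : ∀ d < 1810, D.chkD KL d = true := ext 1780 30 c67 p67

theorem p69 : ∀ d < 1840, D.chkD KL d = true := ext 1810 30 c68 p68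

theorem p70 : ∀ d < 1870, D.chkD KL d = true := ext 1840 30 c69 p69

theorem p71 : ∀ d < 1900, D.chkD KL d = true := ext 1870 30 c70 p70

theorem p72 : ∀ d < 1930, D.chkD KL d = true := ext 1900 30 c71 p71

theorem p73 : ∀ d < 1960, D.chkD KL d = true := ext 1930 30 c72 p72

theorem p74 : ∀ d < 1990, D.chkD KL d = true := ext 1960 30 c73 p73

theorem p75 : ∀ d < 2020, D.chkD KL d = true := ext 1990 30 c74 p74

theorem p76 : ∀ d < 2050, D.chkD KL d = true := ext 2020 30 c75 p75

theorem p77 : ∀ d < 2080, D.chkD KL d = true := ext 2050 30 c76 p76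

theorem p78 : ∀ d < 2110, D.chkD KL d = true := ext 2080 30 c77 p77

theorem p79 : ∀ d < 2140, D.chkD KL d = true := ext 2110 30 c78 p78

theorem p80 : ∀ d < 2170, D.chkD KL d = true := ext 2140 30 c79 p79

theorem p81 : ∀ d < 2200, D.chkD KL d = true := ext 2170 30 c80 p80

theorem p82 : ∀ d < 2230, D.chkD KL d = true := ext 2200 30 c81 p81

theorem p83 : ∀ d < 2260, D.chkD KL d = true := ext 2230 30 c82 p82

theorem p84 : ∀ d < 2290, D.chkD KL d = true := ext 2260 30 c83 p83

theorem p85 : ∀ d < 2320, D.chkD KL d = true := ext 2290 30 c84 p84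

theorem p86 : ∀ d < 2350, D.chkD KL d = true := ext 2320 30 c85 p85

theorem p87 : ∀ d < 2380, D.chkD KL d = true := ext 2350 30 c86 p86

theorem p88 : ∀ d < 2410, D.chkD KL d = true := ext 2380 30 c87 p87

theorem p89 : ∀ d < 2440, D.chkD KL d = true := ext 2410 30 c88 p88

theorem p90 : ∀ d < 2470, D.chkD KL d = true := ext 2440 30 c89 p89

theorem p91 : ∀ d < 2500, D.chkD KL d = true := ext 2470 30 c90 p90

theorem p92 : ∀ d < 2530, D.chkD KL d = true := ext 2500 30 c91 p91

theorem p93 : ∀ d < 2560, D.chkD KL d = true := ext 2530 30 c92 p92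

theorem p94 : ∀ d < 2590, D.chkD KL d = true := ext 2560 30 c93 p93

theorem p95 : ∀ d < 2620, D.chkD KL d = true := ext 2590 30 c94 p94

theorem p96 : ∀ d < 2650, D.chkD KL d = true := ext 2620 30 c95 p95

theorem p97 : ∀ d < 2680, D.chkD KL d = true := ext 2650 30 c96 p96

theorem p98 : ∀ d < 2710, D.chkD KL d = true := ext 2680 30 c97 p97

theorem p99 : ∀ d < 2740, D.chkD KL d = true := ext 2710 30 c98 p98

theorem p100 : ∀ d < 2770, D.chkD KL d = true := ext 2740 30 c99 p99

theorem p101 : ∀ d < 2800, D.chkD KL d = true := ext 2770 30 c100 p100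

theorem p102 : ∀ d < 2830, D.chkD KL d = true := ext 2800 30 c101 p101

theorem p103 : ∀ d < 2860, D.chkD KL d = true := ext 2830 30 c102 p102

theorem p104 : ∀ d < 2890, D.chkD KL d = true := ext 2860 30 c103 p103

theorem p105 : ∀ d < 2920, D.chkD KL d = true := ext 2890 30 c104 p104

theorem p106 : ∀ d < 2950, D.chkD KL d = true := ext 2920 30 c105 p105

theorem p107 : ∀ d < 2980, D.chkD KL d = true := ext 2950 30 c106 p106

theorem p108 : ∀ d < 3010, D.chkD KL d = true := ext 2980 30 c107 p107

theorem p109 : ∀ d < 3040, D.chkD KL d = true := ext 3010 30 c108 p108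

theorem p110 : ∀ d < 3070, D.chkD KL d = true := ext 3040 30 c109 p109

theorem p111 : ∀ d < 3100, D.chkD KL d = true := ext 3070 30 c110 p110

theorem p112 : ∀ d < 3130, D.chkD KL d = true := ext 3100 30 c111 p111

theorem p113 : ∀ d < 3160, D.chkD KL d = true := ext 3130 30 c112 p112

theorem p114 : ∀ d < 3190, D.chkD KL d = true := ext 3160 30 c113 p113

theorem p115 : ∀ d < 3220, D.chkD KL d = true := ext 3190 30 c114 p114

theorem p116 : ∀ d < 3250, D.chkD KL d = true := ext 3220 30 c115 p115

theorem p117 : ∀ d < 3280, D.chkD KL d = true := ext 3250 30 c116 p116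

theorem p118 : ∀ d < 3310, D.chkD KL d = true := ext 3280 30 c117 p117

theorem p119 : ∀ d < 3340, D.chkD KL d = true := ext 3310 30 c118 p118

theorem p120 : ∀ d < 3370, D.chkD KL d = true := ext 3340 30 c119 p119

theorem p121 : ∀ d < 3400, D.chkD KL d = true := ext 3370 30 c120 p120

theorem p122 : ∀ d < 3430, D.chkD KL d = true := ext 3400 30 c121 p121

theorem p123 : ∀ d < 3460, D.chkD KL d = true := ext 3430 30 c122 p122

theorem p124 : ∀ d < 3490, D.chkD KL d = true := ext 3460 30 c123 p123

theorem p125 : ∀ d < 3520, D.chkD KL d = true := ext 3490 30 c124 p124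

theorem p126 : ∀ d < 3550, D.chkD KL d = true := ext 3520 30 c125 p125

theorem p127 : ∀ d < 3580, D.chkD KL d = true := ext 3550 30 c126 p126

theorem p128 : ∀ d < 3610, D.chkD KL d = true := ext 3580 30 c127 p127

theorem p129 : ∀ d < 3640, D.chkD KL d = true := ext 3610 30 c128 p128

theorem p130 : ∀ d < 3670, D.chkD KL d = true := ext 3640 30 c129 p129

theorem p131 : ∀ d < 3700, D.chkD KL d = true := ext 3670 30 c130 p130

theorem p132 : ∀ d < 3730, D.chkD KL d = true := ext 3700 30 c131 p131

theorem p133 : ∀ d < 3760, D.chkD KL d = true := ext 3730 30 c132 p132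

theorem p134 : ∀ d < 3790, D.chkD KL d = true := ext 3760 30 c133 p133

theorem p135 : ∀ d < 3820, D.chkD KL d = true := ext 3790 30 c134 p134

theorem p136 : ∀ d < 3850, D.chkD KL d = true := ext 3820 30 c135 p135

theorem p137 : ∀ d < 3880, D.chkD KL d = true := ext 3850 30 c136 p136

theorem p138 : ∀ d < 3910, D.chkD KL d = true := ext 3880 30 c137 p137

theorem p139 : ∀ d < 3940, D.chkD KL d = true := ext 3910 30 c138 p138

theorem p140 : ∀ d < 3970, D.chkD KL d = true := ext 3940 30 c139 p139

theorem p141 : ∀ d < 4000, D.chkD KL d = true := ext 3970 30 c140 p140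

theorem p142 : ∀ d < 4030, D.chkD KL d = true := ext 4000 30 c141 p141

theorem p143 : ∀ d < 4060, D.chkD KL d = true := ext 4030 30 c142 p142

theorem p144 : ∀ d < 4090, D.chkD KL d = true := ext 4060 30 c143 p143

theorem p145 : ∀ d < 4120, D.chkD KL d = true := ext 4090 30 c144 p144

theorem p146 : ∀ d < 4150, D.chkD KL d = true := ext 4120 30 c145 p145

theorem p147 : ∀ d < 4180, D.chkD KL d = true := ext 4150 30 c146 p146

theorem p148 : ∀ d < 4210, D.chkD KL d = true := ext 4180 30 c147 p147

theorem p149 : ∀ d < 4240, D.chkD KL d = true := ext 4210 30 c148 p148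

theorem p150 : ∀ d < 4270, D.chkD KL d = true := ext 4240 30 c149 p149

theorem p151 : ∀ d < 4300, D.chkD KL d = true := ext 4270 30 c150 p150

theorem p152 : ∀ d < 4330, D.chkD KL d = true := ext 4300 30 c151 p151

theorem p153 : ∀ d < 4360, D.chkD KL d = true := ext 4330 30 c152 p152

theorem p154 : ∀ d < 4390, D.chkD KL d = true := ext 4360 30 c153 p153

theorem p155 : ∀ d < 4420, D.chkD KL d = true := ext 4390 30 c154 p154

theorem p156 : ∀ d < 4450, D.chkD KL d = true := ext 4420 30 c155 p155

theorem p157 : ∀ d < 4480, D.chkD KL d = true := ext 4450 30 c156 p156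

theorem p158 : ∀ d < 4510, D.chkD KL d = true := ext 4480 30 c157 p157

theorem p159 : ∀ d < 4540, D.chkD KL d = true := ext 4510 30 c158 p158

theorem p160 : ∀ d < 4570, D.chkD KL d = true := ext 4540 30 c159 p159

theorem p161 : ∀ d < 4600, D.chkD KL d = true := ext 4570 30 c160 p160

theorem p162 : ∀ d < 4630, D.chkD KL d = true := ext 4600 30 c161 p161

theorem p163 : ∀ d < 4660, D.chkD KL d = true := ext 4630 30 c162 p162

theorem p164 : ∀ d < 4690, D.chkD KL d = true := ext 4660 30 c163 p163

theorem p165 : ∀ d < 4720, D.chkD KL d = true := ext 4690 30 c164 p164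

theorem p166 : ∀ d < 4750, D.chkD KL d = true := ext 4720 30 c165 p165

theorem p167 : ∀ d < 4780, D.chkD KL d = true := ext 4750 30 c166 p166

theorem p168 : ∀ d < 4810, D.chkD KL d = true := ext 4780 30 c167 p167

theorem p169 : ∀ d < 4840, D.chkD KL d = true := ext 4810 30 c168 p168

theorem p170 : ∀ d < 4870, D.chkD KL d = true := ext 4840 30 c169 p169

theorem p171 : ∀ d < 4900, D.chkD KL d = true := ext 4870 30 c170 p170

theorem p172 : ∀ d < 4930, D.chkD KL d = true := ext 4900 30 c171 p171

theorem p173 : ∀ d < 4960, D.chkD KL d = true := ext 4930 30 c172 p172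

theorem p174 : ∀ d < 4990, D.chkD KL d = true := ext 4960 30 c173 p173

theorem p175 : ∀ d < 5020, D.chkD KL d = true := ext 4990 30 c174 p174

theorem p176 : ∀ d < 5050, D.chkD KL d = true := ext 5020 30 c175 p175

theorem p177 : ∀ d < 5080, D.chkD KL d = true := ext 5050 30 c176 p176

theorem p178 : ∀ d < 5110, D.chkD KL d = true := ext 5080 30 c177 p177

theorem p179 : ∀ d < 5140, D.chkD KL d = true := ext 5110 30 c178 p178

theorem p180 : ∀ d < 5170, D.chkD KL d = true := ext 5140 30 c179 p179

theorem p181 : ∀ d < 5200, D.chkD KL d = true := ext 5170 30 c180 p180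

theorem p182 : ∀ d < 5230, D.chkD KL d = true := ext 5200 30 c181 p181

theorem p183 : ∀ d < 5260, D.chkD KL d = true := ext 5230 30 c182 p182

theorem p184 : ∀ d < 5290, D.chkD KL d = true := ext 5260 30 c183 p183

theorem p185 : ∀ d < 5320, D.chkD KL d = true := ext 5290 30 c184 p184

theorem p186 : ∀ d < 5350, D.chkD KL d = true := ext 5320 30 c185 p185

theorem p187 : ∀ d < 5380, D.chkD KL d = true := ext 5350 30 c186 p186

theorem p188 : ∀ d < 5410, D.chkD KL d = true := ext 5380 30 c187 p187

theorem p189 : ∀ d < 5440, D.chkD KL d = true := ext 5410 30 c188 p188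

theorem p190 : ∀ d < 5470, D.chkD KL d = true := ext 5440 30 c189 p189

theorem p191 : ∀ d < 5500, D.chkD KL d = true := ext 5470 30 c190 p190

theorem p192 : ∀ d < 5530, D.chkD KL d = true := ext 5500 30 c191 p191

theorem p193 : ∀ d < 5560, D.chkD KL d = true := ext 5530 30 c192 p192

theorem p194 : ∀ d < 5590, D.chkD KL d = true := ext 5560 30 c193 p193

theorem p195 : ∀ d < 5620, D.chkD KL d = true := ext 5590 30 c194 p194

theorem p196 : ∀ d < 5650, D.chkD KL d = true := ext 5620 30 c195 p195

theorem p197 : ∀ d < 5680, D.chkD KL d = true := ext 5650 30 c196 p196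

theorem p198 : ∀ d < 5710, D.chkD KL d = true := ext 5680 30 c197 p197

theorem p199 : ∀ d < 5740, D.chkD KL d = true := ext 5710 30 c198 p198

theorem p200 : ∀ d < 5770, D.chkD KL d = true := ext 5740 30 c199 p199

theorem p201 : ∀ d < 5800, D.chkD KL d = true := ext 5770 30 c200 p200

theorem p202 : ∀ d < 5830, D.chkD KL d = true := ext 5800 30 c201 p201

theorem p203 : ∀ d < 5860, D.chkD KL d = true := ext 5830 30 c202 p202

theorem p204 : ∀ d < 5890, D.chkD KL d = true := ext 5860 30 c203 p203

theorem p205 : ∀ d < 5920, D.chkD KL d = true := ext 5890 30 c204 p204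

theorem p206 : ∀ d < 5950, D.chkD KL d = true := ext 5920 30 c205 p205

theorem p207 : ∀ d < 5980, D.chkD KL d = true := ext 5950 30 c206 p206

theorem p208 : ∀ d < 6010, D.chkD KL d = true := ext 5980 30 c207 p207

theorem p209 : ∀ d < 6040, D.chkD KL d = true := ext 6010 30 c208 p208

theorem p210 : ∀ d < 6070, D.chkD KL d = true := ext 6040 30 c209 p209

theorem p211 : ∀ d < 6100, D.chkD KL d = true := ext 6070 30 c210 p210

theorem p212 : ∀ d < 6130, D.chkD KL d = true := ext 6100 30 c211 p211

theorem p213 : ∀ d < 6160, D.chkD KL d = true := ext 6130 30 c212 p212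

theorem p214 : ∀ d < 6190, D.chkD KL d = true := ext 6160 30 c213 p213

theorem p215 : ∀ d < 6220, D.chkD KL d = true := ext 6190 30 c214 p214

theorem p216 : ∀ d < 6250, D.chkD KL d = true := ext 6220 30 c215 p215

theorem p217 : ∀ d < 6280, D.chkD KL d = true := ext 6250 30 c216 p216

theorem p218 : ∀ d < 6310, D.chkD KL d = true := ext 6280 30 c217 p217

theorem p219 : ∀ d < 6340, D.chkD KL d = true := ext 6310 30 c218 p218

theorem p220 : ∀ d < 6370, D.chkD KL d = true := ext 6340 30 c219 p219

theorem p221 : ∀ d < 6400, D.chkD KL d = true := ext 6370 30 c220 p220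

theorem p222 : ∀ d < 6430, D.chkD KL d = true := ext 6400 30 c221 p221

theorem p223 : ∀ d < 6460, D.chkD KL d = true := ext 6430 30 c222 p222

theorem p224 : ∀ d < 6490, D.chkD KL d = true := ext 6460 30 c223 p223

theorem p225 : ∀ d < 6520, D.chkD KL d = true := ext 6490 30 c224 p224

theorem p226 : ∀ d < 6550, D.chkD KL d = true := ext 6520 30 c225 p225

theorem p227 : ∀ d < 6580, D.chkD KL d = true := ext 6550 30 c226 p226

theorem p228 : ∀ d < 6610, D.chkD KL d = true := ext 6580 30 c227 p227

theorem p229 : ∀ d < 6640, D.chkD KL d = true := ext 6610 30 c228 p228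

theorem p230 : ∀ d < 6670, D.chkD KL d = true := ext 6640 30 c229 p229

theorem p231 : ∀ d < 6700, D.chkD KL d = true := ext 6670 30 c230 p230

theorem p232 : ∀ d < 6730, D.chkD KL d = true := ext 6700 30 c231 p231

theorem p233 : ∀ d < 6760, D.chkD KL d = true := ext 6730 30 c232 p232

theorem p234 : ∀ d < 6790, D.chkD KL d = true := ext 6760 30 c233 p233

theorem p235 : ∀ d < 6820, D.chkD KL d = true := ext 6790 30 c234 p234

theorem p236 : ∀ d < 6850, D.chkD KL d = true := ext 6820 30 c235 p235

theorem p237 : ∀ d < 6880, D.chkD KL d = true := ext 6850 30 c236 p236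

theorem p238 : ∀ d < 6910, D.chkD KL d = true := ext 6880 30 c237 p237

theorem p239 : ∀ d < 6940, D.chkD KL d = true := ext 6910 30 c238 p238

theorem p240 : ∀ d < 6970, D.chkD KL d = true := ext 6940 30 c239 p239

theorem p241 : ∀ d < 7000, D.chkD KL d = true := ext 6970 30 c240 p240

theorem p242 : ∀ d < 7030, D.chkD KL d = true := ext 7000 30 c241 p241

theorem p243 : ∀ d < 7060, D.chkD KL d = true := ext 7030 30 c242 p242

theorem p244 : ∀ d < 7090, D.chkD KL d = true := ext 7060 30 c243 p243

theorem p245 : ∀ d < 7120, D.chkD KL d = true := ext 7090 30 c244 p244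

theorem p246 : ∀ d < 7150, D.chkD KL d = true := ext 7120 30 c245 p245

theorem p247 : ∀ d < 7180, D.chkD KL d = true := ext 7150 30 c246 p246

theorem p248 : ∀ d < 7210, D.chkD KL d = true := ext 7180 30 c247 p247

theorem p249 : ∀ d < 7240, D.chkD KL d = true := ext 7210 30 c248 p248

theorem p250 : ∀ d < 7270, D.chkD KL d = true := ext 7240 30 c249 p249

theorem p251 : ∀ d < 7300, D.chkD KL d = true := ext 7270 30 c250 p250

theorem p252 : ∀ d < 7330, D.chkD KL d = true := ext 7300 30 c251 p251

theorem p253 : ∀ d < 7360, D.chkD KL d = true := ext 7330 30 c252 p252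

theorem p254 : ∀ d < 7390, D.chkD KL d = true := ext 7360 30 c253 p253

theorem p255 : ∀ d < 7420, D.chkD KL d = true := ext 7390 30 c254 p254

theorem p256 : ∀ d < 7450, D.chkD KL d = true := ext 7420 30 c255 p255

theorem p257 : ∀ d < 7480, D.chkD KL d = true := ext 7450 30 c256 p256

theorem p258 : ∀ d < 7510, D.chkD KL d = true := ext 7480 30 c257 p257

theorem p259 : ∀ d < 7540, D.chkD KL d = true := ext 7510 30 c258 p258

theorem p260 : ∀ d < 7570, D.chkD KL d = true := ext 7540 30 c259 p259

theorem p261 : ∀ d < 7600, D.chkD KL d = true := ext 7570 30 c260 p260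

theorem p262 : ∀ d < 7630, D.chkD KL d = true := ext 7600 30 c261 p261

theorem p263 : ∀ d < 7660, D.chkD KL d = true := ext 7630 30 c262 p262

theorem p264 : ∀ d < 7690, D.chkD KL d = true := ext 7660 30 c263 p263

theorem p265 : ∀ d < 7720, D.chkD KL d = true := ext 7690 30 c264 p264

theorem p266 : ∀ d < 7750, D.chkD KL d = true := ext 7720 30 c265 p265

theorem p267 : ∀ d < 7780, D.chkD KL d = true := ext 7750 30 c266 p266

theorem p268 : ∀ d < 7810, D.chkD KL d = true := ext 7780 30 c267 p267

theorem p269 : ∀ d < 7840, D.chkD KL d = true := ext 7810 30 c268 p268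

theorem p270 : ∀ d < 7870, D.chkD KL d = true := ext 7840 30 c269 p269

theorem p271 : ∀ d < 7900, D.chkD KL d = true := ext 7870 30 c270 p270

theorem p272 : ∀ d < 7930, D.chkD KL d = true := ext 7900 30 c271 p271

theorem p273 : ∀ d < 7960, D.chkD KL d = true := ext 7930 30 c272 p272

theorem p274 : ∀ d < 7990, D.chkD KL d = true := ext 7960 30 c273 p273

theorem p275 : ∀ d < 8020, D.chkD KL d = true := ext 7990 30 c274 p274

theorem p276 : ∀ d < 8050, D.chkD KL d = true := ext 8020 30 c275 p275

theorem p277 : ∀ d < 8080, D.chkD KL d = true := ext 8050 30 c276 p276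

theorem p278 : ∀ d < 8110, D.chkD KL d = true := ext 8080 30 c277 p277

theorem p279 : ∀ d < 8140, D.chkD KL d = true := ext 8110 30 c278 p278

theorem p280 : ∀ d < 8170, D.chkD KL d = true := ext 8140 30 c279 p279

theorem p281 : ∀ d < 8200, D.chkD KL d = true := ext 8170 30 c280 p280

theorem p282 : ∀ d < 8230, D.chkD KL d = true := ext 8200 30 c281 p281

theorem p283 : ∀ d < 8260, D.chkD KL d = true := ext 8230 30 c282 p282

theorem p284 : ∀ d < 8290, D.chkD KL d = true := ext 8260 30 c283 p283

theorem p285 : ∀ d < 8320, D.chkD KL d = true := ext 8290 30 c284 p284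

theorem p286 : ∀ d < 8350, D.chkD KL d = true := ext 8320 30 c285 p285

theorem p287 : ∀ d < 8380, D.chkD KL d = true := ext 8350 30 c286 p286

theorem p288 : ∀ d < 8410, D.chkD KL d = true := ext 8380 30 c287 p287

theorem p289 : ∀ d < 8440, D.chkD KL d = true := ext 8410 30 c288 p288

theorem p290 : ∀ d < 8470, D.chkD KL d = true := ext 8440 30 c289 p289

theorem p291 : ∀ d < 8500, D.chkD KL d = true := ext 8470 30 c290 p290

theorem p292 : ∀ d < 8530, D.chkD KL d = true := ext 8500 30 c291 p291

theorem p293 : ∀ d < 8560, D.chkD KL d = true := ext 8530 30 c292 p292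

theorem p294 : ∀ d < 8590, D.chkD KL d = true := ext 8560 30 c293 p293

theorem p295 : ∀ d < 8620, D.chkD KL d = true := ext 8590 30 c294 p294

theorem p296 : ∀ d < 8650, D.chkD KL d = true := ext 8620 30 c295 p295

theorem p297 : ∀ d < 8680, D.chkD KL d = true := ext 8650 30 c296 p296

theorem p298 : ∀ d < 8710, D.chkD KL d = true := ext 8680 30 c297 p297

theorem p299 : ∀ d < 8740, D.chkD KL d = true := ext 8710 30 c298 p298

theorem p300 : ∀ d < 8770, D.chkD KL d = true := ext 8740 30 c299 p299

theorem p301 : ∀ d < 8800, D.chkD KL d = true := ext 8770 30 c300 p300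

theorem p302 : ∀ d < 8830, D.chkD KL d = true := ext 8800 30 c301 p301

theorem p303 : ∀ d < 8860, D.chkD KL d = true := ext 8830 30 c302 p302

theorem p304 : ∀ d < 8890, D.chkD KL d = true := ext 8860 30 c303 p303

theorem p305 : ∀ d < 8920, D.chkD KL d = true := ext 8890 30 c304 p304

theorem p306 : ∀ d < 8950, D.chkD KL d = true := ext 8920 30 c305 p305

theorem p307 : ∀ d < 8980, D.chkD KL d = true := ext 8950 30 c306 p306

theorem p308 : ∀ d < 9010, D.chkD KL d = true := ext 8980 30 c307 p307

theorem p309 : ∀ d < 9040, D.chkD KL d = true := ext 9010 30 c308 p308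

theorem p310 : ∀ d < 9070, D.chkD KL d = true := ext 9040 30 c309 p309

theorem p311 : ∀ d < 9100, D.chkD KL d = true := ext 9070 30 c310 p310

theorem p312 : ∀ d < 9130, D.chkD KL d = true := ext 9100 30 c311 p311

theorem p313 : ∀ d < 9160, D.chkD KL d = true := ext 9130 30 c312 p312

theorem p314 : ∀ d < 9190, D.chkD KL d = true := ext 9160 30 c313 p313

theorem p315 : ∀ d < 9220, D.chkD KL d = true := ext 9190 30 c314 p314

theorem p316 : ∀ d < 9250, D.chkD KL d = true := ext 9220 30 c315 p315

theorem p317 : ∀ d < 9280, D.chkD KL d = true := ext 9250 30 c316 p316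

theorem p318 : ∀ d < 9310, D.chkD KL d = true := ext 9280 30 c317 p317

theorem p319 : ∀ d < 9340, D.chkD KL d = true := ext 9310 30 c318 p318

theorem p320 : ∀ d < 9370, D.chkD KL d = true := ext 9340 30 c319 p319

theorem p321 : ∀ d < 9400, D.chkD KL d = true := ext 9370 30 c320 p320

theorem p322 : ∀ d < 9430, D.chkD KL d = true := ext 9400 30 c321 p321

theorem p323 : ∀ d < 9460, D.chkD KL d = true := ext 9430 30 c322 p322

theorem p324 : ∀ d < 9490, D.chkD KL d = true := ext 9460 30 c323 p323

theorem p325 : ∀ d < 9520, D.chkD KL d = true := ext 9490 30 c324 p324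

theorem p326 : ∀ d < 9550, D.chkD KL d = true := ext 9520 30 c325 p325

theorem p327 : ∀ d < 9580, D.chkD KL d = true := ext 9550 30 c326 p326

theorem p328 : ∀ d < 9610, D.chkD KL d = true := ext 9580 30 c327 p327

theorem p329 : ∀ d < 9640, D.chkD KL d = true := ext 9610 30 c328 p328

theorem p330 : ∀ d < 9670, D.chkD KL d = true := ext 9640 30 c329 p329

theorem p331 : ∀ d < 9700, D.chkD KL d = true := ext 9670 30 c330 p330

theorem p332 : ∀ d < 9730, D.chkD KL d = true := ext 9700 30 c331 p331

theorem p333 : ∀ d < 9760, D.chkD KL d = true := ext 9730 30 c332 p332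

theorem p334 : ∀ d < 9790, D.chkD KL d = true := ext 9760 30 c333 p333

theorem p335 : ∀ d < 9820, D.chkD KL d = true := ext 9790 30 c334 p334

theorem p336 : ∀ d < 9850, D.chkD KL d = true := ext 9820 30 c335 p335

theorem p337 : ∀ d < 9880, D.chkD KL d = true := ext 9850 30 c336 p336

theorem p338 : ∀ d < 9910, D.chkD KL d = true := ext 9880 30 c337 p337

theorem p339 : ∀ d < 9940, D.chkD KL d = true := ext 9910 30 c338 p338

theorem p340 : ∀ d < 9970, D.chkD KL d = true := ext 9940 30 c339 p339

theorem p341 : ∀ d < 10000, D.chkD KL d = true := ext 9970 30 c340 p340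

theorem p342 : ∀ d < 10030, D.chkD KL d = true := ext 10000 30 c341 p341

theorem p343 : ∀ d < 10060, D.chkD KL d = true := ext 10030 30 c342 p342

theorem p344 : ∀ d < 10090, D.chkD KL d = true := ext 10060 30 c343 p343

theorem p345 : ∀ d < 10120, D.chkD KL d = true := ext 10090 30 c344 p344

theorem p346 : ∀ d < 10150, D.chkD KL d = true := ext 10120 30 c345 p345

theorem p347 : ∀ d < 10180, D.chkD KL d = true := ext 10150 30 c346 p346

theorem p348 : ∀ d < 10210, D.chkD KL d = true := ext 10180 30 c347 p347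

theorem p349 : ∀ d < 10240, D.chkD KL d = true := ext 10210 30 c348 p348

theorem p350 : ∀ d < 10270, D.chkD KL d = true := ext 10240 30 c349 p349

theorem p351 : ∀ d < 10300, D.chkD KL d = true := ext 10270 30 c350 p350

theorem p352 : ∀ d < 10330, D.chkD KL d = true := ext 10300 30 c351 p351

theorem p353 : ∀ d < 10360, D.chkD KL d = true := ext 10330 30 c352 p352

theorem p354 : ∀ d < 10390, D.chkD KL d = true := ext 10360 30 c353 p353

theorem p355 : ∀ d < 10420, D.chkD KL d = true := ext 10390 30 c354 p354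

theorem p356 : ∀ d < 10450, D.chkD KL d = true := ext 10420 30 c355 p355

theorem p357 : ∀ d < 10480, D.chkD KL d = true := ext 10450 30 c356 p356

theorem p358 : ∀ d < 10510, D.chkD KL d = true := ext 10480 30 c357 p357

theorem p359 : ∀ d < 10540, D.chkD KL d = true := ext 10510 30 c358 p358

theorem p360 : ∀ d < 10570, D.chkD KL d = true := ext 10540 30 c359 p359

theorem p361 : ∀ d < 10600, D.chkD KL d = true := ext 10570 30 c360 p360

theorem p362 : ∀ d < 10630, D.chkD KL d = true := ext 10600 30 c361 p361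

theorem p363 : ∀ d < 10660, D.chkD KL d = true := ext 10630 30 c362 p362

theorem p364 : ∀ d < 10690, D.chkD KL d = true := ext 10660 30 c363 p363

theorem p365 : ∀ d < 10720, D.chkD KL d = true := ext 10690 30 c364 p364

theorem p366 : ∀ d < 10750, D.chkD KL d = true := ext 10720 30 c365 p365

theorem p367 : ∀ d < 10780, D.chkD KL d = true := ext 10750 30 c366 p366

theorem p368 : ∀ d < 10810, D.chkD KL d = true := ext 10780 30 c367 p367

theorem p369 : ∀ d < 10840, D.chkD KL d = true := ext 10810 30 c368 p368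

theorem p370 : ∀ d < 10870, D.chkD KL d = true := ext 10840 30 c369 p369

theorem p371 : ∀ d < 10900, D.chkD KL d = true := ext 10870 30 c370 p370

theorem p372 : ∀ d < 10930, D.chkD KL d = true := ext 10900 30 c371 p371

theorem p373 : ∀ d < 10960, D.chkD KL d = true := ext 10930 30 c372 p372

theorem p374 : ∀ d < 10990, D.chkD KL d = true := ext 10960 30 c373 p373

theorem p375 : ∀ d < 11020, D.chkD KL d = true := ext 10990 30 c374 p374

theorem p376 : ∀ d < 11050, D.chkD KL d = true := ext 11020 30 c375 p375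

theorem p377 : ∀ d < 11080, D.chkD KL d = true := ext 11050 30 c376 p376

theorem p378 : ∀ d < 11110, D.chkD KL d = true := ext 11080 30 c377 p377

theorem p379 : ∀ d < 11140, D.chkD KL d = true := ext 11110 30 c378 p378

theorem p380 : ∀ d < 11170, D.chkD KL d = true := ext 11140 30 c379 p379

theorem p381 : ∀ d < 11200, D.chkD KL d = true := ext 11170 30 c380 p380

theorem p382 : ∀ d < 11230, D.chkD KL d = true := ext 11200 30 c381 p381

theorem p383 : ∀ d < 11260, D.chkD KL d = true := ext 11230 30 c382 p382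

theorem p384 : ∀ d < 11290, D.chkD KL d = true := ext 11260 30 c383 p383

theorem p385 : ∀ d < 11320, D.chkD KL d = true := ext 11290 30 c384 p384

theorem p386 : ∀ d < 11350, D.chkD KL d = true := ext 11320 30 c385 p385

theorem p387 : ∀ d < 11380, D.chkD KL d = true := ext 11350 30 c386 p386

theorem p388 : ∀ d < 11410, D.chkD KL d = true := ext 11380 30 c387 p387

theorem p389 : ∀ d < 11440, D.chkD KL d = true := ext 11410 30 c388 p388

theorem p390 : ∀ d < 11470, D.chkD KL d = true := ext 11440 30 c389 p389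

theorem p391 : ∀ d < 11500, D.chkD KL d = true := ext 11470 30 c390 p390

theorem p392 : ∀ d < 11530, D.chkD KL d = true := ext 11500 30 c391 p391

theorem p393 : ∀ d < 11560, D.chkD KL d = true := ext 11530 30 c392 p392

theorem p394 : ∀ d < 11590, D.chkD KL d = true := ext 11560 30 c393 p393

theorem p395 : ∀ d < 11620, D.chkD KL d = true := ext 11590 30 c394 p394

theorem p396 : ∀ d < 11650, D.chkD KL d = true := ext 11620 30 c395 p395

theorem p397 : ∀ d < 11680, D.chkD KL d = true := ext 11650 30 c396 p396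

theorem p398 : ∀ d < 11710, D.chkD KL d = true := ext 11680 30 c397 p397

theorem p399 : ∀ d < 11740, D.chkD KL d = true := ext 11710 30 c398 p398

theorem p400 : ∀ d < 11770, D.chkD KL d = true := ext 11740 30 c399 p399

theorem p401 : ∀ d < 11800, D.chkD KL d = true := ext 11770 30 c400 p400

theorem p402 : ∀ d < 11830, D.chkD KL d = true := ext 11800 30 c401 p401

theorem p403 : ∀ d < 11860, D.chkD KL d = true := ext 11830 30 c402 p402

theorem p404 : ∀ d < 11890, D.chkD KL d = true := ext 11860 30 c403 p403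

theorem p405 : ∀ d < 11920, D.chkD KL d = true := ext 11890 30 c404 p404

theorem p406 : ∀ d < 11950, D.chkD KL d = true := ext 11920 30 c405 p405

theorem p407 : ∀ d < 11980, D.chkD KL d = true := ext 11950 30 c406 p406

theorem p408 : ∀ d < 11991, D.chkD KL d = true := ext 11980 11 c407 p407

theorem p409 : ∀ d < 11993, D.chkD KL d = true := ext 11991 2 c408 p408

theorem p410 : ∀ d < 11995, D.chkD KL d = true := ext 11993 2 c409 p409

theorem p411 : ∀ d < 11996, D.chkD KL d = true := ext 11995 1 c410 p410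

theorem p412 : ∀ d < 11997, D.chkD KL d = true := ext 11996 1 c411 p411

theorem p413 : ∀ d < 11998, D.chkD KL d = true := ext 11997 1 c412 p412

theorem p414 : ∀ d < 11999, D.chkD KL d = true := ext 11998 1 c413 p413

theorem p415 : ∀ d < 12000, D.chkD KL d = true := ext 11999 1 c414 p414

theorem p416 : ∀ d < 12001, D.chkD KL d = true := ext 12000 1 c415 p415

theorem loop : Dat.Loop D KL := ⟨ok, kQ, kK, p416⟩

end Pool.Agent.H188.Ab.K4
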